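import Pool.Agent.W325.KZ.Defs

/-!
Project KZ (helper325): independence of events which depend on disjoint sets of coordinates (S_IND).
-/

set_option autoImplicit false

open Finset MeasureTheory ProbabilityTheory Filter Topology

namespace Pool.Agent.W721.KZIND

open Pool.Agent.W325.KZ

/-- the sigma-algebra of one coordinate -/
@[reducible] def mc (k : ℕ) : MeasurableSpace (ℕ → ℝ) := MeasurableSpace.comap (fun a : ℕ → ℝ => a k) inferInstance

lemma mc_le (k : ℕ) : mc k ≤ (inferInstance : MeasurableSpace (ℕ → ℝ)) :=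
  (measurable_pi_apply k).comap_le

lemma meas_of_dep {S : Set ℕ} {A : Set (ℕ → ℝ)} (hA : MeasurableSet A)
    (hd : DependsOn (fun a => a ∈ A) S) : MeasurableSet[⨆ k ∈ S, mc k] A := by
  classical
  set φ : (ℕ → ℝ) → (ℕ → ℝ) := fun a k => if k ∈ S then a k else 0 with hφ
  have h1 : A = φ ⁻¹' A := by
    ext a
    have h : (a ∈ A) = (φ a ∈ A) := hd (fun k hk => by simp [φ, hk])
    rw [Set.mem_preimage, h]
  have h2 : Measurable[⨆ k ∈ S, mc k] φ := by
    refine @measurable_pi_lambda _ _ _ (⨆ k ∈ S, mc k) _ φ ?_
    intro k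
    by_cases hk : k ∈ S
    · have e : (fun a => φ a k) = fun a : ℕ → ℝ => a k := by
        funext a
        simp [φ, hk]
      rw [e]
      have h3 : mc k ≤ ⨆ k ∈ S, mc k := le_iSup₂_of_le k hk le_rfl
      exact (comap_measurable (fun a : ℕ → ℝ => a k)).mono h3 le_rfl
    · have e : (fun a => φ a k) = fun _ : ℕ → ℝ => (0 : ℝ) := by
        funext a
        simp [φ, hk]
      rw [e]
      exact measurable_const
  rw [h1]
  exact h2 hA

lemma two {S T : Set ℕ} {A B : Set (ℕ → ℝ)} (hA : MeasurableSet A) (hB : MeasurableSet B)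
    (hdA : DependsOn (fun a => a ∈ A) S) (hdB : DependsOn (fun a => a ∈ B) T)
    (hST : Disjoint S T) : ga (A ∩ B) = ga A * ga B := by
  have h1 : iIndepFun (fun (k : ℕ) (a : ℕ → ℝ) => a k) ga := by
    have := iIndepFun_infinitePi (P := fun _ : ℕ => gaussianReal 0 1)
      (X := fun _ : ℕ => (id : ℝ → ℝ)) (fun _ => measurable_id)
    exact this
  have h2 : iIndep mc ga := h1
  have h3 := indep_iSup_of_disjoint mc_le h2 hST
  exact (Indep_iff _ _ _).1 h3 A B (meas_of_dep hA hdA) (meas_of_dep hB hdB)

theorem ind : S_IND := by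
  intro n A S
  induction n with
  | zero =>
    intro _ _
    simp
  | succ n ih =>
    intro hA hS
    have h1 := ih (fun i hi => hA i (by omega)) (fun i hi j hj => hS i (by omega) j (by omega))
    rw [prod_range_succ, ← h1, range_add_one]
    have e1 : (⋂ i ∈ insert n (range n), A i) = (⋂ i ∈ range n, A i) ∩ A n := by
      rw [Finset.set_biInter_insert, Set.inter_comm]
    rw [e1]
    apply two (S := ⋃ i ∈ range n, S i) (T := S n)
    · exact Finset.measurableSet_biInter _ (fun i hi => (hA i (by
        have := mem_range.1 hi; omega)).1)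
    · exact (hA n (by omega)).1
    · intro a b hab
      have h2 : ∀ i ∈ range n, (a ∈ A i ↔ b ∈ A i) := by
        intro i hi
        have h3 : (a ∈ A i) = (b ∈ A i) := (hA i (by have := mem_range.1 hi; omega)).2
          (fun k hk => hab k (by
            simp only [Set.mem_iUnion]
            exact ⟨i, hi, hk⟩))
        rw [h3]
      simp only [Set.mem_iInter, eq_iff_iff]
      exact ⟨fun h i hi => (h2 i hi).1 (h i hi), fun h i hi => (h2 i hi).2 (h i hi)⟩
    · exact (hA n (by omega)).2
    · rw [Set.disjoint_iUnion_left]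
      intro i
      rw [Set.disjoint_iUnion_left]
      intro hi
      have := mem_range.1 hi
      exact hS i (by omega) n (by omega) (by omega)

end Pool.Agent.W721.KZIND
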