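import Pool.Agent.W325.KZ.Defs

/-!
Project KZ (helper325): first moment of a linear form (S_L1).
-/

set_option autoImplicit false

open Finset MeasureTheory ProbabilityTheory Filter Topology

namespace Pool.Agent.W721.KZL1

open Pool.Agent.W325.KZ

lemma hmp (k : ℕ) : MeasurePreserving (fun a : ℕ → ℝ => a k) ga (gaussianReal 0 1) :=
  measurePreserving_eval_infinitePi (fun _ : ℕ => gaussianReal 0 1) k

lemma hindep : iIndepFun (fun (k : ℕ) (a : ℕ → ℝ) => a k) ga :=
  iIndepFun_infinitePi (P := fun _ : ℕ => gaussianReal 0 1)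
    (X := fun _ : ℕ => (id : ℝ → ℝ)) (fun _ => measurable_id)

lemma hL2 (k : ℕ) : MemLp (fun a : ℕ → ℝ => a k) 2 ga :=
  (memLp_id_gaussianReal' (μ := 0) (v := 1) 2 (by norm_num)).comp_measurePreserving (hmp k)

lemma hmean (k : ℕ) : ∫ a, a k ∂ga = 0 := by
  have h := (hmp k).map_eq
  have h1 : ∫ x, x ∂(gaussianReal 0 1) = 0 := integral_id_gaussianReal
  rw [← h, integral_map (hmp k).measurable.aemeasurable (by fun_prop)] at h1
  exact h1

lemma hsq (k : ℕ) : ∫ a, (a k) ^ 2 ∂ga = 1 := by
  have h := (hmp k).map_eq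
  have h1 : Var[fun x : ℝ => x; gaussianReal 0 1] = 1 := by
    have := variance_id_gaussianReal (μ := 0) (v := 1)
    simp only [NNReal.coe_one] at this
    exact this
  have h2 : ∫ x, x ∂(gaussianReal 0 1) = 0 := integral_id_gaussianReal
  rw [variance_of_integral_eq_zero aemeasurable_id' h2] at h1
  rw [← h, integral_map (hmp k).measurable.aemeasurable (by fun_prop)] at h1
  exact h1

lemma hvar (k : ℕ) (c : ℝ) : Var[fun a : ℕ → ℝ => a k * c; ga] = c ^ 2 := by
  have hm : AEMeasurable (fun a : ℕ → ℝ => a k * c) ga := ((hL2 k).mul_const c).aemeasurable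
  rw [variance_of_integral_eq_zero hm (by rw [integral_mul_const, hmean, zero_mul])]
  have : (fun a : ℕ → ℝ => (a k * c) ^ 2) = fun a : ℕ → ℝ => (a k) ^ 2 * c ^ 2 := by
    funext a; ring
  rw [this, integral_mul_const, hsq, one_mul]

theorem l1 : S_L1 := by
  intro D c
  set X : (ℕ → ℝ) → ℝ := fun a => ∑ k ∈ range D, a k * c k with hX
  have hXL : MemLp X 2 ga := by
    apply memLp_finsetSum
    intro k _
    exact (hL2 k).mul_const (c k)
  have hX0 : ∫ a, X a ∂ga = 0 := by
    rw [hX, integral_finsetSum]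
    · apply sum_eq_zero
      intro k _
      rw [integral_mul_const, hmean, zero_mul]
    · intro k _
      exact ((hL2 k).integrable (by norm_num)).mul_const _
  have hXv : Var[X; ga] = ∑ k ∈ range D, c k ^ 2 := by
    have h1 := IndepFun.variance_sum (μ := ga) (s := range D)
      (X := fun (k : ℕ) (a : ℕ → ℝ) => a k * c k) (fun k _ => (hL2 k).mul_const (c k))
      (by
        intro i _ j _ hij
        have h2 := hindep.indepFun hij
        exact h2.comp (φ := fun x : ℝ => x * c i) (ψ := fun x : ℝ => x * c j) (by fun_prop)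
          (by fun_prop))
    have h3 : (∑ i ∈ range D, fun a : ℕ → ℝ => a i * c i) = X := by
      funext a
      rw [hX, Finset.sum_apply]
    rw [h3] at h1
    rw [h1]
    apply sum_congr rfl
    intro k _
    exact hvar k (c k)
  have hX2 : ∫ a, X a ^ 2 ∂ga = ∑ k ∈ range D, c k ^ 2 := by
    rw [← hXv, variance_of_integral_eq_zero hXL.aemeasurable hX0]
  have hle : (∫ a, |X a| ∂ga) ^ 2 ≤ ∑ k ∈ range D, c k ^ 2 := by
    have h1 := variance_nonneg (|X|) ga
    rw [variance_eq_sub hXL.abs] at h1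
    have h2 : ∫ a, (|X| ^ 2) a ∂ga = ∫ a, X a ^ 2 ∂ga := by
      apply integral_congr_ae
      filter_upwards with a
      show |X a| ^ 2 = X a ^ 2
      exact sq_abs _
    have h3 : ∫ a, (|X|) a ∂ga = ∫ a, |X a| ∂ga := rfl
    rw [h2, hX2, h3] at h1
    linarith
  have hint : Integrable (fun a => |X a|) ga := (hXL.abs).integrable (by norm_num)
  have h4 : ∫⁻ a, ENNReal.ofReal |X a| ∂ga = ENNReal.ofReal (∫ a, |X a| ∂ga) :=
    (ofReal_integral_eq_lintegral_ofReal hint (Filter.Eventually.of_forall fun a => abs_nonneg _)).symm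
  show ∫⁻ a, ENNReal.ofReal |X a| ∂ga ≤ _
  rw [h4]
  apply ENNReal.ofReal_le_ofReal
  exact Real.le_sqrt_of_sq_le hle

end Pool.Agent.W721.KZL1
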